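import Pool.Agent.Helper69.MC.StC

/-!
Project MC (MP_9583f0_gt), module LOP: curves linked with one of the two boundary curves.
-/

set_option autoImplicit false

namespace Pool.Agent.Helper27.MC

open Set Topology Filter MeasureTheory
open Pool.Agent.Helper31.CY Pool.Agent.Helper69.MF Pool.Agent.Helper69.MC

private lemma pt0 (a b c : ℝ) : (pt a b c) 0 = a := by simp [pt]
private lemma pt1 (a b c : ℝ) : (pt a b c) 1 = b := by simp [pt]
private lemma pt2 (a b c : ℝ) : (pt a b c) 2 = c := by simp [pt]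

private lemma ptc {X : Type} [TopologicalSpace X] (a b c : X → ℝ) (ha : Continuous a)
    (hb : Continuous b) (hc : Continuous c) : Continuous (fun x => pt (a x) (b x) (c x)) := by
  unfold pt
  apply (PiLp.continuous_toLp 2 (fun _ : Fin 3 => ℝ)).comp
  rw [continuous_pi_iff]
  intro i
  fin_cases i
  · exact ha
  · exact hb
  · exact hc

private lemma core (hWND : StWND) (hGAU : StGAU) (hPGL : StPGL) (K : Set (ℝ × ℝ)) (Γ : Set E3)
    (e σ : ℝ) (hσ : σ * σ = 1) (hK : CB K)
    (hΓ1 : ∀ x : E3, σ * (x 2 - e) < 0 → x ∉ Γ)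
    (hΓ2 : ∀ x : E3, x 2 = e → (x 0, x 1) ∈ frontier K → x ∈ Γ) (o y : ℝ × ℝ)
    (ho : o ∈ interior K) (hy : y ∉ K) (P : unitInterval → E3) (hP : Continuous P)
    (hP0 : P 0 = pt o.1 o.2 e) (hP1 : P 1 = pt y.1 y.2 e)
    (hPs : ∀ s, 0 ≤ σ * (P s 2 - e) ∧ P s ∉ Γ) :
    ∃ γ ∈ NT Γ, ∀ s, γ s ∈ range P ∨ σ * (γ s 2 - e) ≤ 0 := by
  have hσ0 : σ ≠ 0 := by
    intro h
    rw [h] at hσ
    norm_num at hσ
  obtain ⟨g1, hg1⟩ : ∃ g1 : unitInterval → E3, ∀ τ, g1 τ = pt y.1 y.2 (e - σ * τ) :=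
    ⟨_, fun _ => rfl⟩
  obtain ⟨g2, hg2⟩ : ∃ g2 : unitInterval → E3, ∀ τ, g2 τ =
      pt (y.1 + τ * (o.1 - y.1)) (y.2 + τ * (o.2 - y.2)) (e - σ) := ⟨_, fun _ => rfl⟩
  obtain ⟨g3, hg3⟩ : ∃ g3 : unitInterval → E3, ∀ τ, g3 τ = pt o.1 o.2 (e - σ * (1 - τ)) :=
    ⟨_, fun _ => rfl⟩
  have hc1 : Continuous g1 := by
    rw [show g1 = fun τ : unitInterval => pt y.1 y.2 (e - σ * (τ : ℝ)) from funext hg1]
    exact ptc _ _ _ continuous_const continuous_const (by fun_prop)
  have hc2 : Continuous g2 := by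
    rw [show g2 = fun τ : unitInterval => pt (y.1 + (τ : ℝ) * (o.1 - y.1))
      (y.2 + (τ : ℝ) * (o.2 - y.2)) (e - σ) from funext hg2]
    exact ptc _ _ _ (by fun_prop) (by fun_prop) continuous_const
  have hc3 : Continuous g3 := by
    rw [show g3 = fun τ : unitInterval => pt o.1 o.2 (e - σ * (1 - (τ : ℝ))) from funext hg3]
    exact ptc _ _ _ continuous_const continuous_const (by fun_prop)
  obtain ⟨g, hg⟩ : ∃ g : ℕ → unitInterval → E3, ∀ k, g k = if k = 0 then P else
      if k = 1 then g1 else if k = 2 then g2 else g3 := ⟨_, fun _ => rfl⟩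
  have hgc : ∀ k, Continuous (g k) := by
    intro k
    rw [hg]
    split_ifs
    · exact hP
    · exact hc1
    · exact hc2
    · exact hc3
  have G0 : g 0 = P := by rw [hg]; simp
  have G1 : g 1 = g1 := by rw [hg]; simp
  have G2 : g 2 = g2 := by rw [hg]; simp
  have G3 : g 3 = g3 := by rw [hg]; simp
  have hj : ∀ k, k + 1 < 4 → g k 1 = g (k + 1) 0 := by
    intro k hk
    have hk' : k = 0 ∨ k = 1 ∨ k = 2 := by omega
    rcases hk' with rfl | rfl | rfl
    · rw [G0, G1, hP1, hg1]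
      congr 1
      simp
    · rw [G1, G2, hg1, hg2]
      congr 1 <;> simp
    · rw [G2, G3, hg2, hg3]
      congr 1 <;> simp
  obtain ⟨γ, hγc, hγ⟩ := hPGL 4 g (by norm_num) hgc hj
  have hlow : ∀ s : unitInterval, (s : ℝ) ≤ 1 / 4 → ∃ τ : unitInterval, γ s = P τ := by
    intro s hs
    have h0 : 0 ≤ (s : ℝ) := s.2.1
    refine ⟨⟨4 * s, by linarith, by linarith⟩, ?_⟩
    rw [hγ 0 (by norm_num) s ⟨4 * s, by linarith, by linarith⟩ (by push_cast; ring), G0]
  have hhigh : ∀ s : unitInterval, 1 / 4 ≤ (s : ℝ) → σ * (γ s 2 - e) ≤ 0 ∧ γ s ∉ Γ := by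
    intro s hs
    have h1 : (s : ℝ) ≤ 1 := s.2.2
    rcases le_or_gt (s : ℝ) (1 / 2) with h2 | h2
    · set τ : unitInterval := ⟨4 * s - 1, by linarith, by linarith⟩ with hτ
      have hτv : (τ : ℝ) = 4 * s - 1 := rfl
      have h3 : γ s = g1 τ := by
        rw [hγ 1 (by norm_num) s τ (by rw [hτv]; push_cast; ring), G1]
      have h4 : σ * (γ s 2 - e) = -τ := by
        rw [h3, hg1, pt2]
        linear_combination (-(τ : ℝ)) * hσ
      have h5 : 0 ≤ (τ : ℝ) := τ.2.1
      refine ⟨by linarith, ?_⟩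
      rcases eq_or_lt_of_le h5 with h6 | h6
      · have h7 : τ = 0 := Subtype.ext h6.symm
        rw [h3, h7]
        have h8 : g1 0 = P 1 := by
          rw [hP1, hg1]
          congr 1
          simp
        rw [h8]
        exact (hPs 1).2
      · exact hΓ1 _ (by linarith)
    · rcases le_or_gt (s : ℝ) (3 / 4) with h3 | h3
      · set τ : unitInterval := ⟨4 * s - 2, by linarith, by linarith⟩ with hτ
        have hτv : (τ : ℝ) = 4 * s - 2 := rfl
        have h4 : γ s = g2 τ := by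
          rw [hγ 2 (by norm_num) s τ (by rw [hτv]; push_cast; ring), G2]
        have h5 : σ * (γ s 2 - e) = -1 := by
          rw [h4, hg2, pt2]
          linear_combination (-1 : ℝ) * hσ
        exact ⟨by linarith, hΓ1 _ (by linarith)⟩
      · set τ : unitInterval := ⟨4 * s - 3, by linarith, by linarith⟩ with hτ
        have hτv : (τ : ℝ) = 4 * s - 3 := rfl
        have h4 : γ s = g3 τ := by
          rw [hγ 3 (by norm_num) s τ (by rw [hτv]; push_cast; ring), G3]
        have h5 : σ * (γ s 2 - e) = -(1 - τ) := by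
          rw [h4, hg3, pt2]
          linear_combination (-(1 - (τ : ℝ))) * hσ
        have h6 : (τ : ℝ) ≤ 1 := τ.2.2
        refine ⟨by linarith, ?_⟩
        rcases eq_or_lt_of_le h6 with h7 | h7
        · have h8 : τ = 1 := Subtype.ext h7
          rw [h4, h8]
          have h9 : g3 1 = P 0 := by
            rw [hP0, hg3]
            congr 1
            simp
          rw [h9]
          exact (hPs 0).2
        · exact hΓ1 _ (by linarith)
  have hγ0 : γ 0 = pt o.1 o.2 e := by
    rw [hγ 0 (by norm_num) 0 0 (by simp), G0, hP0]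
  have hγ1 : γ 1 = pt o.1 o.2 e := by
    rw [hγ 3 (by norm_num) 1 1 (by norm_num), G3, hg3]
    congr 1
    simp
  obtain ⟨q4, hq4⟩ : ∃ q4 : unitInterval, (q4 : ℝ) = 1 / 4 :=
    ⟨⟨1 / 4, by norm_num, by norm_num⟩, rfl⟩
  have hγq : γ q4 = pt y.1 y.2 e := by
    rw [hγ 0 (by norm_num) q4 1 (by rw [hq4]; norm_num), G0, hP1]
  refine ⟨γ, ⟨⟨hγc, by rw [hγ0, hγ1], ?_⟩, ?_⟩, ?_⟩
  · intro s
    rcases le_total (s : ℝ) (1 / 4) with h | h
    · obtain ⟨τ, hτ⟩ := hlow s h
      rw [hτ]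
      exact (hPs τ).2
    · exact (hhigh s h).2
  · rintro ⟨c, H, hHc, hH0, hH1, hHe, hHΓ⟩
    obtain ⟨G, hGc, -, hGK, hGi, -⟩ := hGAU K o hK ho
    have hcl : IsClosed K := hK.1.isClosed
    have hcoord : ∀ i : Fin 3, Continuous (fun q : unitInterval × unitInterval => H q i) :=
      fun i => (EuclideanSpace.proj (𝕜 := ℝ) i).continuous.comp hHc
    refine hWND (fun q => (G (H q 0, H q 1) - 1, σ * (H q 2 - e))) q4 ?_ ?_ ?_ ?_ ?_ ?_ ?_ ?_ ?_ ?_
    · have ha := hcoord 0
      have hb := hcoord 1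
      have hd := hcoord 2
      exact ((hGc.comp (ha.prodMk hb)).sub continuous_const).prodMk
        (continuous_const.mul (hd.sub continuous_const))
    · intro q hq
      have h1 : G (H q 0, H q 1) - 1 = 0 := congrArg Prod.fst hq
      have h2 : σ * (H q 2 - e) = 0 := congrArg Prod.snd hq
      have h3 : H q 2 = e := by
        rcases mul_eq_zero.1 h2 with h | h
        · exact absurd h hσ0
        · linarith
      refine hHΓ q (hΓ2 _ h3 ?_)
      rw [hcl.frontier_eq]
      refine ⟨(hGK _).1 (by linarith), fun h4 => ?_⟩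
      have := (hGi _).2 h4
      linarith
    · intro t
      simp only [hHe t]
    · intro s
      simp only [hH1]
    · simp only [hH0, hγ0, pt0, pt1]
      have := (hGi (o.1, o.2)).2 ho
      linarith
    · simp only [hH0, hγ0, pt2]
      ring
    · simp only [hH0, hγq, pt0, pt1]
      have : ¬ G (y.1, y.2) ≤ 1 := fun h => hy ((hGK _).1 h)
      push Not at this
      linarith
    · simp only [hH0, hγq, pt2]
      ring
    · intro s hs
      have hs' : (s : ℝ) ≤ 1 / 4 := by
        rw [← hq4]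
        exact hs
      obtain ⟨τ, hτ⟩ := hlow s hs'
      simp only [hH0, hτ]
      exact (hPs τ).1
    · intro s hs
      have hs' : 1 / 4 ≤ (s : ℝ) := by
        rw [← hq4]
        exact hs
      simp only [hH0]
      exact (hhigh s hs').1
  · intro s
    rcases le_total (s : ℝ) (1 / 4) with h | h
    · obtain ⟨τ, hτ⟩ := hlow s h
      left
      rw [hτ]
      exact mem_range_self τ
    · right
      exact (hhigh s h).1

theorem hLOP : StWND → StGAU → StPGL → StLOP := by
  intro hWND hGAU hPGL K0 K1 h hh hK0 hK1 o y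
  refine ⟨fun ho hy P hP hP0 hP1 hPs => ?_, fun ho hy P hP hP0 hP1 hPs => ?_⟩
  · obtain ⟨γ, hγ, hγs⟩ := core hWND hGAU hPGL K0 (Gm K0 K1 h) 0 1 (by norm_num) hK0
      (by
        intro x hx hxm
        rcases hxm with ⟨-, h1⟩ | ⟨-, h1⟩
        · rw [h1] at hx
          norm_num at hx
        · rw [h1] at hx
          linarith)
      (fun x hx hf => Or.inl ⟨hf, hx⟩) o y ho hy P hP hP0 hP1
      (fun s => ⟨by linarith [(hPs s).1], (hPs s).2⟩)
    refine ⟨γ, hγ, fun s => ?_⟩
    rcases hγs s with h1 | h1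
    · exact Or.inl h1
    · exact Or.inr (by linarith)
  · obtain ⟨γ, hγ, hγs⟩ := core hWND hGAU hPGL K1 (Gm K0 K1 h) h (-1) (by norm_num) hK1
      (by
        intro x hx hxm
        rcases hxm with ⟨-, h1⟩ | ⟨-, h1⟩
        · rw [h1] at hx
          linarith
        · rw [h1] at hx
          linarith)
      (fun x hx hf => Or.inr ⟨hf, hx⟩) o y ho hy P hP hP0 hP1
      (fun s => ⟨by linarith [(hPs s).1], (hPs s).2⟩)
    refine ⟨γ, hγ, fun s => ?_⟩
    rcases hγs s with h1 | h1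
    · exact Or.inl h1
    · exact Or.inr (by linarith)

end Pool.Agent.Helper27.MC
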